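import Mathlib
import Pool.Agent.Q209.NonM

/-!
# `non(M) ≤ a_vec` for every countable field

Let `E` be a vector space of countably infinite dimension over a countable field, and let `A` be a
maximal almost disjoint family of (infinite-dimensional) subspaces of `E` with at least two
members. Then `|A| ≥ non(M)`.

Idea: let `X₀ ≠ X₁` be in `A`, and let `b` and `v` be linearly independent sequences in `X₀` and in
a complement of `X₀ ∩ X₁` in `X₁`. For `g : ω → ω` let `Z_g` be the span of the vectors
`b n + v (g n)`. If `X ∈ A`, `X ≠ X₁`, and the values of `g` below `n` are given, then there are at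
most `n + 1 + dim (X ∩ X₁)` values `g n` for which `X` has an element with last coordinate `n`,
with respect to this basis of `Z_g`. Fewer than `non(M)` such slalom predictors can be avoided by
one `g`.
-/

set_option autoImplicit false

namespace Pool.Agent.Results.MP_43e680_lc.NonMeagerBound

open Set Filter Module

section defs

variable {F E : Type} [Field F] [AddCommGroup E] [Module F E]

/-- The subspaces `X` and `Y` are almost disjoint. -/
def AlmostDisjoint (X Y : Submodule F E) : Prop := FiniteDimensional F (X ⊓ Y : Submodule F E)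

/-- `A` is an almost disjoint family of infinite-dimensional subspaces. -/
def IsAD (A : Set (Submodule F E)) : Prop :=
  (∀ X ∈ A, ¬ FiniteDimensional F X) ∧ ∀ X ∈ A, ∀ Y ∈ A, X ≠ Y → AlmostDisjoint X Y

/-- `A` is an almost disjoint family of subspaces which is not properly contained in another
one. -/
def IsMad (A : Set (Submodule F E)) : Prop :=
  IsAD A ∧ ∀ B : Set (Submodule F E), IsAD B → A ⊆ B → A = B

end defs

/-- The least cardinality of a nonmeager set of reals. -/
noncomputable def nonM : Cardinal.{0} :=
  sInf {κ | ∃ Y : Set ℝ, ¬ IsMeagre Y ∧ Cardinal.mk Y = κ}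

theorem nonM_eq : nonM = Pool.Agent.Results.MP_3edc48_gt.MinSizeNonM.nonM := by
  unfold nonM Pool.Agent.Results.MP_3edc48_gt.MinSizeNonM.nonM
  congr 1
  ext κ
  simp only [mem_ofPred_eq, and_comm]

section main

variable {F E : Type} [Field F] [AddCommGroup E] [Module F E]

/-- The number of bad values. -/
theorem card_bad (X X1 U : Submodule F E) (v : ℕ → E) (hv : LinearIndependent F v)
    (hv1 : ∀ k, v k ∈ X1) (hX : FiniteDimensional F (X ⊓ X1 : Submodule F E))
    (hU : FiniteDimensional F U) (b : E) (K : Finset ℕ)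
    (hK : ∀ k ∈ K, b + v k ∈ X ⊔ U) :
    K.card ≤ finrank F (X ⊓ X1 : Submodule F E) + finrank F U + 1 := by
  classical
  let L : (K → F) →ₗ[F] E := Fintype.linearCombination F fun k : K => v k
  have hL : Function.Injective L := by
    have h1 : LinearIndependent F fun k : K => v k := hv.comp _ Subtype.val_injective
    exact h1.fintypeLinearCombination_injective
  have hL1 : ∀ c, L c ∈ X1 := by
    intro c
    simp only [L, Fintype.linearCombination_apply]
    exact X1.sum_mem fun k _ => X1.smul_mem _ (hv1 k)
  -- first step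
  let f1 : (K → F) →ₗ[F] (E ⧸ (X ⊔ U)) := (X ⊔ U).mkQ ∘ₗ L
  have hr1 : LinearMap.range f1 ≤ Submodule.span F {(X ⊔ U).mkQ b} := by
    rintro _ ⟨c, rfl⟩
    simp only [f1, L, LinearMap.comp_apply, Fintype.linearCombination_apply, map_sum, map_smul]
    refine Submodule.sum_mem _ fun k _ => Submodule.smul_mem _ _ ?_
    have h1 : (X ⊔ U).mkQ (b + v k) = 0 := by
      rw [Submodule.mkQ_apply, Submodule.Quotient.mk_eq_zero]
      exact hK k k.2
    rw [map_add] at h1
    rw [eq_neg_of_add_eq_zero_right h1]
    exact Submodule.neg_mem _ (Submodule.mem_span_singleton_self _)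
  have hr1' : finrank F (LinearMap.range f1) ≤ 1 :=
    (Submodule.finrank_mono hr1).trans (by
      have := finrank_span_finset_le_card (R := F) ({(X ⊔ U).mkQ b} : Finset (E ⧸ (X ⊔ U)))
      rwa [Finset.coe_singleton, Finset.card_singleton] at this)
  have hrk1 := LinearMap.finrank_range_add_finrank_ker f1
  rw [Module.finrank_pi, Fintype.card_coe] at hrk1
  -- second step
  let f2 : LinearMap.ker f1 →ₗ[F] (E ⧸ X) := (X.mkQ ∘ₗ L) ∘ₗ (LinearMap.ker f1).subtype
  have hr2 : LinearMap.range f2 ≤ U.map X.mkQ := by
    rintro _ ⟨c, rfl⟩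
    have h1 : L c.1 ∈ X ⊔ U := by
      have := c.2
      rw [LinearMap.mem_ker] at this
      simpa only [f1, LinearMap.comp_apply, Submodule.mkQ_apply,
        Submodule.Quotient.mk_eq_zero] using this
    obtain ⟨x, hx, u, hu, hxu⟩ := Submodule.mem_sup.1 h1
    refine ⟨u, hu, ?_⟩
    simp only [f2, LinearMap.comp_apply, Submodule.subtype_apply, ← hxu, map_add]
    rw [(Submodule.Quotient.mk_eq_zero X (x := x)).2 hx |> fun h => (show X.mkQ x = 0 from h),
      zero_add]
  have hr2' : finrank F (LinearMap.range f2) ≤ finrank F U :=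
    (Submodule.finrank_mono hr2).trans (Submodule.finrank_map_le _ _)
  have hrk2 := LinearMap.finrank_range_add_finrank_ker f2
  let f3 : LinearMap.ker f2 →ₗ[F] (X ⊓ X1 : Submodule F E) :=
    LinearMap.codRestrict _ (L ∘ₗ (LinearMap.ker f1).subtype ∘ₗ (LinearMap.ker f2).subtype) (by
      intro c
      refine ⟨?_, hL1 _⟩
      have := c.2
      rw [LinearMap.mem_ker] at this
      simp only [f2, LinearMap.comp_apply, Submodule.subtype_apply, Submodule.mkQ_apply,
        Submodule.Quotient.mk_eq_zero] at this
      exact this)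
  have hf3 : Function.Injective f3 := by
    intro c c' h
    have h1 : L c.1.1 = L c'.1.1 := congrArg Subtype.val h
    exact Subtype.ext (Subtype.ext (hL h1))
  have hk3 := LinearMap.finrank_le_finrank_of_injective hf3
  omega

theorem exists_seq (X : Submodule F E) (hX : ¬ FiniteDimensional F X) :
    ∃ b : ℕ → E, LinearIndependent F b ∧ ∀ n, b n ∈ X := by
  have h1 : Cardinal.aleph0 ≤ Module.rank F X := by
    by_contra h
    push Not at h
    exact hX (Module.rank_lt_aleph0_iff.1 h)
  obtain ⟨s, hs, hli⟩ := (le_rank_iff_exists_linearIndependent (K := F) (V := X)).1 h1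
  have h2 : Cardinal.mk ℕ = Cardinal.mk s := by rw [hs, Cardinal.mk_nat]
  obtain ⟨e⟩ := Cardinal.eq.1 h2
  refine ⟨fun n => ((e n : s) : X), ?_, fun n => (e n : X).2⟩
  have h3 : LinearIndependent F fun n => ((e n : s) : X) := hli.comp _ e.injective
  exact h3.map' X.subtype (Submodule.ker_subtype X)

theorem result (A : Set (Submodule F E)) (hA : IsMad A) (hnt : A.Nontrivial) :
    nonM ≤ Cardinal.mk A := by
  classical
  rw [nonM_eq]
  by_contra hlt
  push Not at hlt
  obtain ⟨⟨hA1, hA2⟩, hmax⟩ := hA
  -- two members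
  obtain ⟨X0, hX0, X1, hX1, h01⟩ := hnt
  have hfd01 : FiniteDimensional F (X0 ⊓ X1 : Submodule F E) := hA2 X0 hX0 X1 hX1 h01
  -- a complement
  obtain ⟨C, hC⟩ := Submodule.exists_isCompl (X0 ⊓ X1)
  let X1' : Submodule F E := X1 ⊓ C
  have hX1'0 : X0 ⊓ X1' = ⊥ := by
    rw [eq_bot_iff]
    rintro x ⟨h1, h2, h3⟩
    exact hC.disjoint.le_bot ⟨⟨h1, h2⟩, h3⟩
  have hX1'inf : ¬ FiniteDimensional F X1' := by
    intro hfd
    have h1 : X1 ≤ (X0 ⊓ X1) ⊔ X1' := by
      intro x hx
      have h2 : x ∈ (X0 ⊓ X1) ⊔ C := by rw [hC.sup_eq_top]; trivial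
      obtain ⟨y, hy, z, hz, rfl⟩ := Submodule.mem_sup.1 h2
      refine Submodule.add_mem_sup hy ⟨?_, hz⟩
      have := X1.sub_mem hx hy.2
      simpa using this
    have h2 : FiniteDimensional F ((X0 ⊓ X1) ⊔ X1' : Submodule F E) :=
      Submodule.finiteDimensional_sup _ _
    exact hA1 X1 hX1 (Submodule.finiteDimensional_of_le h1)
  obtain ⟨b, hb, hbX⟩ := exists_seq X0 (hA1 X0 hX0)
  obtain ⟨v, hv, hvX⟩ := exists_seq X1' hX1'inf
  -- the span of a finite sequence
  let U : List ℕ → Submodule F E := fun σ =>
    Submodule.span F (Set.range fun i : Fin σ.length => b i + v (σ.getD i 0))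
  have hUfd : ∀ σ, FiniteDimensional F (U σ) := fun σ =>
    FiniteDimensional.span_of_finite F (Set.finite_range _)
  have hUrk : ∀ σ, finrank F (U σ) ≤ σ.length := fun σ => by
    have := finrank_range_le_card (R := F) (b := fun i : Fin σ.length => b i + v (σ.getD i 0))
    simpa [Set.finrank, U] using this
  -- the bad sets
  let Bad : Submodule F E → List ℕ → Set ℕ := fun X σ => {k | b σ.length + v k ∈ X ⊔ U σ}
  have hX'fd : ∀ X ∈ A, X ≠ X1 → FiniteDimensional F (X ⊓ X1' : Submodule F E) := by
    intro X hX hne
    have := hA2 X hX X1 hX1 hne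
    exact @Submodule.finiteDimensional_of_le F E _ _ _ (X ⊓ X1') (X ⊓ X1) this
      (inf_le_inf_left _ inf_le_left)
  have hBadK : ∀ X ∈ A, X ≠ X1 → ∀ σ, ∀ K : Finset ℕ, (K : Set ℕ) ⊆ Bad X σ →
      K.card ≤ finrank F (X ⊓ X1' : Submodule F E) + σ.length + 1 := by
    intro X hX hne σ K hK
    have h1 := card_bad X X1' (U σ) v hv hvX (hX'fd X hX hne) (hUfd σ) (b σ.length) K
      (fun k hk => hK hk)
    have h2 := hUrk σ
    omega
  have hBadfin : ∀ X ∈ A, X ≠ X1 → ∀ σ, (Bad X σ).Finite := by
    intro X hX hne σ
    by_contra h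
    obtain ⟨K, hK, hKc⟩ := Set.Infinite.exists_subset_card_eq h
      (finrank F (X ⊓ X1' : Submodule F E) + σ.length + 2)
    have := hBadK X hX hne σ K hK
    omega
  let B : A → List ℕ → Finset ℕ := fun X σ =>
    if h : (X : Submodule F E) ≠ X1 ∧
        finrank F ((X : Submodule F E) ⊓ X1' : Submodule F E) ≤ σ.length then
      (hBadfin X X.2 h.1 σ).toFinset else ∅
  have hBcard : ∀ X σ, (B X σ).card ≤ 2 * σ.length + 1 := by
    intro X σ
    by_cases h : (X : Submodule F E) ≠ X1 ∧
        finrank F ((X : Submodule F E) ⊓ X1' : Submodule F E) ≤ σ.length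
    · simp only [B]
      rw [dif_pos h]
      have := hBadK X X.2 h.1 σ (hBadfin X X.2 h.1 σ).toFinset (by simp)
      have := h.2
      omega
    · simp only [B]
      rw [dif_neg h]
      simp
  obtain ⟨g, hg⟩ := Q209.NonM.avoid_predictor hlt (fun n => 2 * n + 1) B hBcard
  -- the new subspace
  let T : (ℕ →₀ F) →ₗ[F] E := Finsupp.linearCombination F fun n => b n + v (g n)
  let P : (ℕ →₀ F) →ₗ[F] E := Finsupp.linearCombination F b
  let Q : (ℕ →₀ F) →ₗ[F] E := Finsupp.linearCombination F fun n => v (g n)
  have hTPQ : ∀ a, T a = P a + Q a := by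
    intro a
    simp only [T, P, Q, Finsupp.linearCombination_apply, Finsupp.sum, smul_add,
      Finset.sum_add_distrib]
  have hPinj : Function.Injective P := hb
  have hPX : ∀ a, P a ∈ X0 := by
    intro a
    simp only [P, Finsupp.linearCombination_apply]
    exact X0.sum_mem fun n _ => X0.smul_mem _ (hbX n)
  have hQX : ∀ a, Q a ∈ X1' := by
    intro a
    simp only [Q, Finsupp.linearCombination_apply]
    exact X1'.sum_mem fun n _ => X1'.smul_mem _ (hvX _)
  have hTinj : Function.Injective T := by
    rw [injective_iff_map_eq_zero]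
    intro a ha
    rw [hTPQ] at ha
    have h1 : P a ∈ X0 ⊓ X1' := by
      refine ⟨hPX a, ?_⟩
      rw [eq_neg_of_add_eq_zero_left ha]
      exact X1'.neg_mem (hQX a)
    rw [hX1'0] at h1
    exact (injective_iff_map_eq_zero P).1 hPinj a ((Submodule.mem_bot F).1 h1)
  let Z : Submodule F E := LinearMap.range T
  have hZinf : ¬ FiniteDimensional F Z := by
    intro h
    have h1 : FiniteDimensional F (ℕ →₀ F) :=
      Module.Finite.equiv (LinearEquiv.ofInjective T hTinj).symm
    have h2 : Module.rank F (ℕ →₀ F) < Cardinal.aleph0 := Module.rank_lt_aleph0 F (ℕ →₀ F)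
    rw [rank_finsupp_self'] at h2
    simp at h2
  -- almost disjointness follows from finite dimension of the preimage
  have hcomap : ∀ X : Submodule F E, FiniteDimensional F (X.comap T) →
      FiniteDimensional F (Z ⊓ X : Submodule F E) := by
    intro X hX
    have h1 : Z ⊓ X = (X.comap T).map T := by
      rw [Submodule.map_comap_eq]
    rw [h1]
    infer_instance
  have hZX1 : FiniteDimensional F (X1.comap T) := by
    have h1 : ∀ a ∈ X1.comap T, P a ∈ X0 ⊓ X1 := by
      intro a ha
      refine ⟨hPX a, ?_⟩
      have h2 : T a ∈ X1 := ha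
      rw [hTPQ] at h2
      have h3 := X1.sub_mem h2 (hQX a).1
      simpa using h3
    let f : X1.comap T →ₗ[F] (X0 ⊓ X1 : Submodule F E) :=
      LinearMap.codRestrict _ (P ∘ₗ (X1.comap T).subtype) fun a => h1 a.1 a.2
    have hf : Function.Injective f := by
      intro a a' h
      exact Subtype.ext (hPinj (congrArg Subtype.val h))
    exact FiniteDimensional.of_injective f hf
  have hZX : ∀ X ∈ A, X ≠ X1 → FiniteDimensional F (X.comap T) := by
    intro X hX hne
    obtain ⟨n0, hn0⟩ := eventually_atTop.1 (hg ⟨X, hX⟩)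
    let m := max n0 (finrank F (X ⊓ X1' : Submodule F E))
    have h1 : X.comap T ≤ Finsupp.supported F F (Set.Iio m) := by
      intro a ha
      rw [Finsupp.mem_supported]
      intro i hi
      by_contra hcon
      have hne' : a.support.Nonempty := ⟨i, hi⟩
      let n := a.support.max' hne'
      have hn : m ≤ n := by
        have h2 : ¬ i < m := hcon
        exact (not_lt.1 h2).trans (Finset.le_max' _ _ hi)
      have hna : a n ≠ 0 := Finsupp.mem_support_iff.1 (Finset.max'_mem _ hne')
      have hlen : ((List.range n).map g).length = n := by simp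
      -- `g n` is a bad value
      have hbad : g n ∈ Bad X ((List.range n).map g) := by
        show b ((List.range n).map g).length + v (g n) ∈ X ⊔ U ((List.range n).map g)
        rw [hlen]
        have h2 : T a = a n • (b n + v (g n)) +
            ∑ j ∈ a.support.erase n, a j • (b j + v (g j)) := by
          simp only [T, Finsupp.linearCombination_apply, Finsupp.sum]
          exact (Finset.add_sum_erase _ _ (Finset.max'_mem _ hne')).symm
        have h3 : ∑ j ∈ a.support.erase n, a j • (b j + v (g j)) ∈
            U ((List.range n).map g) := by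
          refine Submodule.sum_mem _ fun j hj => Submodule.smul_mem _ _ ?_
          obtain ⟨hj1, hj2⟩ := Finset.mem_erase.1 hj
          have hjn : j < n := lt_of_le_of_ne (Finset.le_max' _ _ hj2) hj1
          refine Submodule.subset_span ⟨⟨j, by rw [hlen]; exact hjn⟩, ?_⟩
          simp [List.getD_eq_getElem?_getD, hjn]
        have h4 : b n + v (g n) = (a n)⁻¹ • T a +
            (-(a n)⁻¹) • ∑ j ∈ a.support.erase n, a j • (b j + v (g j)) := by
          rw [h2, smul_add, smul_smul, inv_mul_cancel₀ hna, one_smul, neg_smul]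
          abel
        rw [h4]
        exact Submodule.add_mem_sup (X.smul_mem _ ha) (Submodule.smul_mem _ _ h3)
      have h5 := hn0 n ((le_max_left _ _).trans hn)
      apply h5
      simp only [B]
      rw [dif_pos ⟨hne, by rw [hlen]; exact (le_max_right _ _).trans hn⟩, Set.Finite.mem_toFinset]
      exact hbad
    have h2 : FiniteDimensional F (Finsupp.supported F F (Set.Iio m)) :=
      Module.Finite.equiv (Finsupp.supportedEquivFinsupp (Set.Iio m)).symm
    exact Submodule.finiteDimensional_of_le h1
  have hZall : ∀ X ∈ A, FiniteDimensional F (Z ⊓ X : Submodule F E) := by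
    intro X hX
    by_cases hne : X = X1
    · rw [hne]
      exact hcomap X1 hZX1
    · exact hcomap X (hZX X hX hne)
  -- contradiction with maximality
  have hins : IsAD (insert Z A) := by
    refine ⟨?_, ?_⟩
    · rintro X (rfl | hX)
      · exact hZinf
      · exact hA1 X hX
    · rintro X (rfl | hX) Y (rfl | hY) hne
      · exact absurd rfl hne
      · exact hZall Y hY
      · show FiniteDimensional F (X ⊓ Z : Submodule F E)
        rw [inf_comm]
        exact hZall X hX
      · exact hA2 X hX Y hY hne
  have hZA : Z ∈ A := by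
    rw [hmax _ hins (subset_insert _ _)]
    exact mem_insert _ _
  have := hZall Z hZA
  rw [inf_idem] at this
  exact hZinf this

end main

end Pool.Agent.Results.MP_43e680_lc.NonMeagerBound
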